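import Mathlib

namespace Pool.Agent.Results.MP_1d6f1e_gt.Counter

open Set

/-- The visual hull: points all of whose lines meet `S`. -/
def hull {n : ℕ} (S : Set (EuclideanSpace ℝ (Fin n))) : Set (EuclideanSpace ℝ (Fin n)) :=
  {x | ∀ m : Submodule ℝ (EuclideanSpace ℝ (Fin n)), Module.finrank ℝ m = 1 → ∃ v ∈ m, x + v ∈ S}

/-- A bounded convex set with nonempty interior. -/
def IsBody {n : ℕ} (S : Set (EuclideanSpace ℝ (Fin n))) : Prop :=
  Bornology.IsBounded S ∧ Convex ℝ S ∧ (interior S).Nonempty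

/-- Any two of the sets lie in different open half-spaces bounded by a hyperplane. -/
def StrictlySep {n k : ℕ} (S : Fin k → Set (EuclideanSpace ℝ (Fin n))) : Prop :=
  ∀ i j, i ≠ j → ∃ (f : EuclideanSpace ℝ (Fin n) →ₗ[ℝ] ℝ) (c : ℝ), f ≠ 0 ∧
    (∀ x ∈ S i, f x < c) ∧ ∀ x ∈ S j, c < f x

abbrev E := EuclideanSpace ℝ (Fin 3)

lemma mem_hull {S : Set E} {x : E} : x ∈ hull S ↔ ∀ e : E, e ≠ 0 → ∃ t : ℝ, x + t • e ∈ S := by
  constructor
  · intro h e he
    obtain ⟨v, hv, hx⟩ := h (Submodule.span ℝ {e}) (finrank_span_singleton he)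
    obtain ⟨t, rfl⟩ := Submodule.mem_span_singleton.1 hv
    exact ⟨t, hx⟩
  · intro h m hm
    obtain ⟨v, hv, -⟩ := finrank_eq_one_iff'.1 hm
    obtain ⟨t, ht⟩ := h v.1 (fun h0 => hv (Subtype.ext h0))
    exact ⟨t • v.1, m.smul_mem t v.2, ht⟩

def P1 (x y z : ℝ) : Prop :=
  y ≤ 0 ∧ y ≤ x ∧ z ≤ 0 ∧ (z = 0 → x ≤ 0) ∧ 1 < x - 2 * y - z ∧ x - 2 * y - z < 2
def P2 (x y z : ℝ) : Prop :=
  0 ≤ x ∧ y ≤ x ∧ 0 ≤ z ∧ (x = 0 → 0 ≤ y + z) ∧ 4 < 2 * x - y + z ∧ 2 * x - y + z < 5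
def P3 (x y z : ℝ) : Prop :=
  0 ≤ x ∧ 0 ≤ y ∧ z < 0 ∧ (x = 0 → 0 ≤ y + z) ∧ 10 < x + y - z ∧ x + y - z < 11

def S : Fin 3 → Set E :=
  ![{v | P1 (v 0) (v 1) (v 2)}, {v | P2 (v 0) (v 1) (v 2)}, {v | P3 (v 0) (v 1) (v 2)}]

def Q (x y z : ℝ) : Prop := P1 x y z ∨ P2 x y z ∨ P3 x y z

lemma mem_U {v : E} : v ∈ ⋃ i, S i ↔ Q (v 0) (v 1) (v 2) := by
  simp [S, Q, Fin.exists_fin_succ]

lemma mem_H {v : E} : v ∈ hull (⋃ i, S i) ↔ ∀ a b c : ℝ, (a ≠ 0 ∨ b ≠ 0 ∨ c ≠ 0) →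
    ∃ t : ℝ, Q (v 0 + t * a) (v 1 + t * b) (v 2 + t * c) := by
  rw [mem_hull]
  constructor
  · intro h a b c habc
    obtain ⟨t, ht⟩ := h !₂[a, b, c] (fun h0 => by
      have h1 := congrArg (fun w : E => w 0) h0
      have h2 := congrArg (fun w : E => w 1) h0
      have h3 := congrArg (fun w : E => w 2) h0
      simp at h1 h2 h3
      tauto)
    exact ⟨t, by simpa using mem_U.1 ht⟩
  · intro h e he
    obtain ⟨t, ht⟩ := h (e 0) (e 1) (e 2) (by
      by_contra hn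
      push Not at hn
      refine he (PiLp.ext fun i => ?_)
      fin_cases i <;> simp [hn.1, hn.2.1, hn.2.2])
    exact ⟨t, mem_U.2 (by simpa using ht)⟩

lemma c1 {a b c : ℝ} (h1 : b ≤ 0) (h2 : b ≤ a) (h3 : c ≤ 0) (h4 : c = 0 → a ≤ 0)
    (h : 0 < a - 2 * b - c) : ∃ t : ℝ, 0 < t ∧ Q (t * a) (t * b) (t * c) := by
  have ht : 0 < 3 / 2 / (a - 2 * b - c) := by positivity
  have e : 3 / 2 / (a - 2 * b - c) * (a - 2 * b - c) = 3 / 2 := by field_simp
  generalize 3 / 2 / (a - 2 * b - c) = t at ht e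
  refine ⟨t, ht, Or.inl ⟨by nlinarith, by nlinarith, by nlinarith, fun h0 => ?_, by nlinarith,
    by nlinarith⟩⟩
  have := h4 ((mul_eq_zero.1 h0).resolve_left ht.ne')
  nlinarith

lemma c2 {a b c : ℝ} (h1 : 0 ≤ a) (h2 : b ≤ a) (h3 : 0 ≤ c) (h4 : a = 0 → 0 ≤ b + c)
    (h : 0 < 2 * a - b + c) : ∃ t : ℝ, 0 < t ∧ Q (t * a) (t * b) (t * c) := by
  have ht : 0 < 9 / 2 / (2 * a - b + c) := by positivity
  have e : 9 / 2 / (2 * a - b + c) * (2 * a - b + c) = 9 / 2 := by field_simp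
  generalize 9 / 2 / (2 * a - b + c) = t at ht e
  refine ⟨t, ht, Or.inr (Or.inl ⟨by nlinarith, by nlinarith, by nlinarith, fun h0 => ?_,
    by nlinarith, by nlinarith⟩)⟩
  have := h4 ((mul_eq_zero.1 h0).resolve_left ht.ne')
  nlinarith

lemma c3 {a b c : ℝ} (h1 : 0 ≤ a) (h2 : 0 ≤ b) (h3 : c < 0) (h4 : a = 0 → 0 ≤ b + c) :
    ∃ t : ℝ, 0 < t ∧ Q (t * a) (t * b) (t * c) := by
  have h : 0 < a + b - c := by linarith
  have ht : 0 < 21 / 2 / (a + b - c) := by positivity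
  have e : 21 / 2 / (a + b - c) * (a + b - c) = 21 / 2 := by field_simp
  generalize 21 / 2 / (a + b - c) = t at ht e
  refine ⟨t, ht, Or.inr (Or.inr ⟨by nlinarith, by nlinarith, by nlinarith, fun h0 => ?_,
    by nlinarith, by nlinarith⟩)⟩
  have := h4 ((mul_eq_zero.1 h0).resolve_left ht.ne')
  nlinarith

lemma ng {a b c : ℝ} (h : ∃ t : ℝ, 0 < t ∧ Q (t * -a) (t * -b) (t * -c)) :
    ∃ t : ℝ, Q (t * a) (t * b) (t * c) := by
  obtain ⟨t, -, h⟩ := h
  exact ⟨-t, by simpa using h⟩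

lemma ps {a b c : ℝ} (h : ∃ t : ℝ, 0 < t ∧ Q (t * a) (t * b) (t * c)) :
    ∃ t : ℝ, Q (t * a) (t * b) (t * c) := h.imp fun _ h => h.2

lemma up {a b c : ℝ} (hc : 0 < c) : ∃ t : ℝ, Q (t * a) (t * b) (t * c) := by
  rcases le_total a b with h | h
  · rcases le_or_gt 0 b with h1 | h1
    · exact ng (c1 (by linarith) (by linarith) (by linarith) (fun h0 => by linarith) (by linarith))
    · exact ng (c3 (by linarith) (by linarith) (by linarith) (fun h0 => by linarith))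
  · rcases lt_trichotomy a 0 with h1 | h1 | h1
    · exact ng (c3 (by linarith) (by linarith) (by linarith) (fun h0 => by linarith))
    · rcases le_total 0 (b + c) with h2 | h2
      · exact ps (c2 (by linarith) h hc.le (fun _ => h2) (by linarith))
      · exact ng (c3 (by linarith) (by linarith) (by linarith) (fun h0 => by linarith))
    · exact ps (c2 h1.le h hc.le (fun h0 => by linarith) (by linarith))

lemma flat {a b : ℝ} (h : b < a) : ∃ t : ℝ, Q (t * a) (t * b) (t * 0) := by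
  rcases le_or_gt a 0 with h1 | h1
  · exact ps (c1 (by linarith) h.le le_rfl (fun _ => h1) (by linarith))
  · exact ps (c2 h1.le h.le le_rfl (fun h0 => by linarith) (by linarith))

lemma flip {a b c : ℝ} (h : ∃ t : ℝ, Q (t * -a) (t * -b) (t * -c)) :
    ∃ t : ℝ, Q (t * a) (t * b) (t * c) := by
  obtain ⟨t, h⟩ := h
  exact ⟨-t, by simpa using h⟩

lemma zero_mem : (0 : E) ∈ hull (⋃ i, S i) := by
  rw [mem_H]
  intro a b c h
  simp only [PiLp.zero_apply, zero_add]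
  rcases lt_trichotomy c 0 with hc | rfl | hc
  · exact flip (up (by linarith))
  · rcases lt_trichotomy a b with h1 | rfl | h1
    · exact flip (by simpa using flat (a := -a) (b := -b) (by linarith))
    · rcases lt_trichotomy a 0 with h2 | h2 | h2
      · exact ng (c2 (by linarith) le_rfl (by simp) (fun h0 => by linarith) (by linarith))
      · simp [h2] at h
      · exact ps (c2 h2.le le_rfl le_rfl (fun h0 => by linarith) (by linarith))
    · exact flat h1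
  · exact up hc

lemma iso {v : E} (hv : v ∈ hull (⋃ i, S i)) (h0 : |v 0| < 1 / 20) (h1 : |v 1| < 1 / 20)
    (h2 : |v 2| < 1 / 20) : v = 0 := by
  rw [mem_H] at hv
  rw [abs_lt] at h0 h1 h2
  obtain ⟨⟨a1, a2⟩, ⟨b1, b2⟩, ⟨d1, d2⟩⟩ := And.intro h0 (And.intro h1 h2)
  have hc : v 2 = 0 := by
    rcases lt_trichotomy (v 2) 0 with h | h | h
    · obtain ⟨t, ht⟩ := hv (4 - v 0) (2 - v 1) (-v 2) (Or.inl (by linarith))
      rcases ht with ⟨p1, p2, p3, -, p5, p6⟩ | ⟨p1, p2, p3, -, p5, p6⟩ | ⟨p1, p2, p3, -, p5, p6⟩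
      · have : t ≤ 1 / 10 := by nlinarith
        have : -1 / 10 ≤ t := by nlinarith
        nlinarith
      · have : 1 ≤ t := by nlinarith
        nlinarith
      · have : t < 1 := by nlinarith
        have : -1 ≤ t := by nlinarith
        nlinarith
    · exact h
    · obtain ⟨t, ht⟩ := hv 1 2 0 (Or.inl one_ne_zero)
      rcases ht with ⟨p1, p2, p3, -, p5, p6⟩ | ⟨p1, p2, p3, -, p5, p6⟩ | ⟨p1, p2, p3, -, p5, p6⟩ <;>
        linarith
  have ha : 0 ≤ v 0 ∧ (v 0 = 0 → 0 ≤ v 1) := by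
    obtain ⟨t, ht⟩ := hv 0 1 (-1) (Or.inr (Or.inl one_ne_zero))
    rcases ht with ⟨p1, p2, p3, -, p5, p6⟩ | ⟨p1, p2, p3, p4, p5, p6⟩ | ⟨p1, p2, p3, p4, p5, p6⟩
    · linarith
    · exact ⟨by linarith, fun h => by have := p4 (by linarith); linarith⟩
    · exact ⟨by linarith, fun h => by have := p4 (by linarith); linarith⟩
  have ha0 : v 0 = 0 := by
    rcases ha.1.lt_or_eq with h | h
    · obtain ⟨t, ht⟩ := hv (-v 0) (-2 - v 1) 0 (Or.inr (Or.inl (by linarith)))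
      rcases ht with ⟨p1, p2, p3, p4, p5, p6⟩ | ⟨p1, p2, p3, -, p5, p6⟩ | ⟨p1, p2, p3, -, p5, p6⟩
      · have := p4 (by linarith)
        have : 1 ≤ t := by nlinarith
        nlinarith
      · have : t ≤ 1 := by nlinarith
        have : -1 ≤ t := by nlinarith
        nlinarith
      · linarith
    · exact h.symm
  have hb : v 1 = 0 := by
    refine le_antisymm ?_ (ha.2 ha0)
    obtain ⟨t, ht⟩ := hv 1 1 1 (Or.inl one_ne_zero)
    rcases ht with ⟨p1, p2, p3, -, p5, p6⟩ | ⟨p1, p2, p3, -, p5, p6⟩ | ⟨p1, p2, p3, -, p5, p6⟩ <;>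
      linarith
  refine PiLp.ext fun i => ?_
  fin_cases i <;> simp [ha0, hb, hc]

lemma n3 {v : E} (hv : v ∈ hull (⋃ i, S i)) : v 0 + v 1 - v 2 ≠ 10 := by
  intro h
  obtain ⟨t, ht⟩ := mem_H.1 hv 1 (-1) 0 (Or.inl one_ne_zero)
  rcases ht with ⟨p1, p2, p3, -, p5, p6⟩ | ⟨p1, p2, p3, -, p5, p6⟩ | ⟨p1, p2, p3, -, p5, p6⟩ <;>
    linarith

lemma n2 {v : E} (hv : v ∈ hull (⋃ i, S i)) (h3 : v 0 + v 1 - v 2 < 10) :
    2 * v 0 - v 1 + v 2 ≠ 4 := by
  intro h
  obtain ⟨t, ht⟩ := mem_H.1 hv 0 1 1 (Or.inr (Or.inl one_ne_zero))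
  rcases ht with ⟨p1, p2, p3, -, p5, p6⟩ | ⟨p1, p2, p3, -, p5, p6⟩ | ⟨p1, p2, p3, -, p5, p6⟩ <;>
    linarith

lemma sub {v : E} (h : Q (v 0) (v 1) (v 2)) : v ∈ hull (⋃ i, S i) :=
  mem_H.2 fun _ _ _ _ => ⟨0, by simpa using h⟩

lemma bdd {T : Set E} (h : ∀ v ∈ T, |v 0| ≤ 20 ∧ |v 1| ≤ 20 ∧ |v 2| ≤ 20) :
    Bornology.IsBounded T := by
  refine (Metric.isBounded_closedBall (x := (0 : E)) (r := 60)).subset fun v hv => ?_
  obtain ⟨h0, h1, h2⟩ := h v hv
  rw [mem_closedBall_zero_iff, EuclideanSpace.norm_eq, Real.sqrt_le_iff, Fin.sum_univ_three]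
  simp only [Real.norm_eq_abs]
  refine ⟨by norm_num, ?_⟩
  nlinarith [abs_nonneg (v 0), abs_nonneg (v 1), abs_nonneg (v 2)]

lemma body (i : Fin 3) : IsBody (S i) := by
  fin_cases i
  · refine ⟨bdd fun v ⟨p1, p2, p3, _, p5, p6⟩ => ?_, ?_, !₂[0, -1 / 2, -1 / 2], ?_⟩
    · simp only [abs_le]; refine ⟨⟨?_, ?_⟩, ⟨?_, ?_⟩, ?_, ?_⟩ <;> linarith
    · rintro x ⟨p1, p2, p3, p4, p5, p6⟩ y ⟨q1, q2, q3, q4, q5, q6⟩ a b ha hb hab
      simp only [S, P1, Fin.zero_eta, Matrix.cons_val_zero, mem_setOf_eq, PiLp.add_apply,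
        PiLp.smul_apply, smul_eq_mul]
      refine ⟨by nlinarith, by nlinarith, by nlinarith, fun h => ?_, ?_, ?_⟩
      · have e1 : a * x 2 = 0 := by nlinarith
        have e2 : b * y 2 = 0 := by nlinarith
        have f1 : a * x 0 ≤ 0 := by
          rcases mul_eq_zero.1 e1 with h | h
          · simp [h]
          · nlinarith [p4 h]
        have f2 : b * y 0 ≤ 0 := by
          rcases mul_eq_zero.1 e2 with h | h
          · simp [h]
          · nlinarith [q4 h]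
        linarith
      · have := (convex_Ioi (1 : ℝ)) p5 q5 ha hb hab
        simp only [smul_eq_mul, mem_Ioi] at this; linarith
      · have := (convex_Iio (2 : ℝ)) p6 q6 ha hb hab
        simp only [smul_eq_mul, mem_Iio] at this; linarith
    · refine mem_interior.2 ⟨{v : E | v 1 < 0 ∧ v 1 < v 0 ∧ v 2 < 0 ∧ 1 < v 0 - 2 * v 1 - v 2 ∧
        v 0 - 2 * v 1 - v 2 < 2}, fun v ⟨p1, p2, p3, p4, p5⟩ =>
          ⟨p1.le, p2.le, p3.le, fun h => absurd h p3.ne, p4, p5⟩, ?_, by simp; norm_num⟩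
      simp only [setOf_and]
      repeat' apply IsOpen.inter
      all_goals exact isOpen_lt (by fun_prop) (by fun_prop)
  · refine ⟨bdd fun v ⟨p1, p2, p3, _, p5, p6⟩ => ?_, ?_, !₂[2, 0, 1 / 2], ?_⟩
    · simp only [abs_le]; refine ⟨⟨?_, ?_⟩, ⟨?_, ?_⟩, ?_, ?_⟩ <;> linarith
    · rintro x ⟨p1, p2, p3, p4, p5, p6⟩ y ⟨q1, q2, q3, q4, q5, q6⟩ a b ha hb hab
      simp only [S, P2, Fin.mk_one, Matrix.cons_val_one, Matrix.cons_val_zero, mem_setOf_eq,
        PiLp.add_apply, PiLp.smul_apply, smul_eq_mul]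
      refine ⟨by nlinarith, by nlinarith, by nlinarith, fun h => ?_, ?_, ?_⟩
      · have e1 : a * x 0 = 0 := by nlinarith
        have e2 : b * y 0 = 0 := by nlinarith
        have f1 : 0 ≤ a * (x 1 + x 2) := by
          rcases mul_eq_zero.1 e1 with h | h
          · simp [h]
          · nlinarith [p4 h]
        have f2 : 0 ≤ b * (y 1 + y 2) := by
          rcases mul_eq_zero.1 e2 with h | h
          · simp [h]
          · nlinarith [q4 h]
        linarith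
      · have := (convex_Ioi (4 : ℝ)) p5 q5 ha hb hab
        simp only [smul_eq_mul, mem_Ioi] at this; linarith
      · have := (convex_Iio (5 : ℝ)) p6 q6 ha hb hab
        simp only [smul_eq_mul, mem_Iio] at this; linarith
    · refine mem_interior.2 ⟨{v : E | 0 < v 0 ∧ v 1 < v 0 ∧ 0 < v 2 ∧ 4 < 2 * v 0 - v 1 + v 2 ∧
        2 * v 0 - v 1 + v 2 < 5}, fun v ⟨p1, p2, p3, p4, p5⟩ =>
          ⟨p1.le, p2.le, p3.le, fun h => absurd h p1.ne', p4, p5⟩, ?_, by simp; norm_num⟩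
      simp only [setOf_and]
      repeat' apply IsOpen.inter
      all_goals exact isOpen_lt (by fun_prop) (by fun_prop)
  · refine ⟨bdd fun v ⟨p1, p2, p3, _, p5, p6⟩ => ?_, ?_, !₂[5, 5, -1 / 2], ?_⟩
    · simp only [abs_le]; refine ⟨⟨?_, ?_⟩, ⟨?_, ?_⟩, ?_, ?_⟩ <;> linarith
    · rintro x ⟨p1, p2, p3, p4, p5, p6⟩ y ⟨q1, q2, q3, q4, q5, q6⟩ a b ha hb hab
      change P3 _ _ _
      simp only [P3, PiLp.add_apply, PiLp.smul_apply, smul_eq_mul]
      refine ⟨by nlinarith, by nlinarith, ?_, fun h => ?_, ?_, ?_⟩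
      · have := (convex_Iio (0 : ℝ)) p3 q3 ha hb hab
        simpa using this
      · have e1 : a * x 0 = 0 := by nlinarith
        have e2 : b * y 0 = 0 := by nlinarith
        have f1 : 0 ≤ a * (x 1 + x 2) := by
          rcases mul_eq_zero.1 e1 with h | h
          · simp [h]
          · nlinarith [p4 h]
        have f2 : 0 ≤ b * (y 1 + y 2) := by
          rcases mul_eq_zero.1 e2 with h | h
          · simp [h]
          · nlinarith [q4 h]
        linarith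
      · have := (convex_Ioi (10 : ℝ)) p5 q5 ha hb hab
        simp only [smul_eq_mul, mem_Ioi] at this; linarith
      · have := (convex_Iio (11 : ℝ)) p6 q6 ha hb hab
        simp only [smul_eq_mul, mem_Iio] at this; linarith
    · refine mem_interior.2 ⟨{v : E | 0 < v 0 ∧ 0 < v 1 ∧ v 2 < 0 ∧ 10 < v 0 + v 1 - v 2 ∧
        v 0 + v 1 - v 2 < 11}, fun v ⟨p1, p2, p3, p4, p5⟩ =>
          ⟨p1.le, p2.le, p3, fun h => absurd h p1.ne', p4, p5⟩, ?_, by simp; norm_num⟩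
      simp only [setOf_and]
      repeat' apply IsOpen.inter
      all_goals exact isOpen_lt (by fun_prop) (by fun_prop)

noncomputable def L (a b c : ℝ) : E →ₗ[ℝ] ℝ where
  toFun v := a * v 0 + b * v 1 + c * v 2
  map_add' x y := by simp; ring
  map_smul' t x := by simp; ring

lemma L_ne {a b c : ℝ} (h : a ≠ 0) : L a b c ≠ 0 := fun h0 => by
  have := LinearMap.congr_fun h0 !₂[1, 0, 0]
  simp [L, h] at this

lemma sep : StrictlySep S := by
  intro i j hij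
  fin_cases i <;> fin_cases j
  · exact absurd rfl hij
  · exact ⟨L 2 (-1) 1, 4, L_ne two_ne_zero, fun v ⟨p1, p2, p3, _, p5, p6⟩ => by simp [L]; linarith,
      fun v ⟨p1, p2, p3, _, p5, p6⟩ => by simp [L]; linarith⟩
  · exact ⟨L 1 1 (-1), 10, L_ne one_ne_zero, fun v ⟨p1, p2, p3, _, p5, p6⟩ => by simp [L]; linarith,
      fun v ⟨p1, p2, p3, _, p5, p6⟩ => by simp [L]; linarith⟩
  · exact ⟨L (-2) 1 (-1), -4, L_ne (by norm_num),
      fun v ⟨p1, p2, p3, _, p5, p6⟩ => by simp [L]; linarith,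
      fun v ⟨p1, p2, p3, _, p5, p6⟩ => by simp [L]; linarith⟩
  · exact absurd rfl hij
  · exact ⟨L 1 1 (-1), 10, L_ne one_ne_zero, fun v ⟨p1, p2, p3, _, p5, p6⟩ => by simp [L]; linarith,
      fun v ⟨p1, p2, p3, _, p5, p6⟩ => by simp [L]; linarith⟩
  · exact ⟨L (-1) (-1) 1, -10, L_ne (by norm_num),
      fun v ⟨p1, p2, p3, _, p5, p6⟩ => by simp [L]; linarith,
      fun v ⟨p1, p2, p3, _, p5, p6⟩ => by simp [L]; linarith⟩
  · exact ⟨L (-1) (-1) 1, -10, L_ne (by norm_num),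
      fun v ⟨p1, p2, p3, _, p5, p6⟩ => by simp [L]; linarith,
      fun v ⟨p1, p2, p3, _, p5, p6⟩ => by simp [L]; linarith⟩
  · exact absurd rfl hij

abbrev H := hull (⋃ i, S i)

lemma cl0 : IsClopen {x : H | x.1 = 0} := by
  refine ⟨isClosed_eq (by fun_prop) continuous_const, ?_⟩
  have : {x : H | x.1 = 0} = {x : H | |x.1 0| < 1 / 20} ∩ ({x : H | |x.1 1| < 1 / 20} ∩
      {x : H | |x.1 2| < 1 / 20}) :=
    Subset.antisymm (fun x hx => by simp [show x.1 = 0 from hx])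
      fun x hx => iso x.2 hx.1 hx.2.1 hx.2.2
  rw [this]
  repeat' apply IsOpen.inter
  all_goals exact isOpen_lt (by fun_prop) (by fun_prop)

lemma cl3 : IsClopen {x : H | 10 < x.1 0 + x.1 1 - x.1 2} := by
  refine ⟨?_, isOpen_lt (by fun_prop) (by fun_prop)⟩
  have : {x : H | 10 < x.1 0 + x.1 1 - x.1 2} = {x : H | 10 ≤ x.1 0 + x.1 1 - x.1 2} :=
    Set.ext fun x => ⟨fun hx => mem_setOf.2 (le_of_lt (mem_setOf.1 hx)),
      fun hx => mem_setOf.2 (lt_of_le_of_ne (mem_setOf.1 hx) (n3 x.2).symm)⟩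
  rw [this]
  exact isClosed_le (by fun_prop) (by fun_prop)

lemma cl2 : IsClopen ({x : H | x.1 0 + x.1 1 - x.1 2 < 10} ∩
    {x : H | 4 < 2 * x.1 0 - x.1 1 + x.1 2}) := by
  refine ⟨?_, (isOpen_lt (by fun_prop) (by fun_prop)).inter (isOpen_lt (by fun_prop) (by fun_prop))⟩
  have : {x : H | x.1 0 + x.1 1 - x.1 2 < 10} ∩ {x : H | 4 < 2 * x.1 0 - x.1 1 + x.1 2} =
      {x : H | x.1 0 + x.1 1 - x.1 2 ≤ 10} ∩ {x : H | 4 ≤ 2 * x.1 0 - x.1 1 + x.1 2} :=
    Set.ext fun x => by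
      simp only [mem_inter_iff, mem_setOf_eq]
      exact ⟨fun hx => ⟨le_of_lt hx.1, le_of_lt hx.2⟩, fun hx => ⟨lt_of_le_of_ne hx.1 (n3 x.2),
        lt_of_le_of_ne hx.2 (n2 x.2 (lt_of_le_of_ne hx.1 (n3 x.2))).symm⟩⟩
  rw [this]
  exact (isClosed_le (by fun_prop) (by fun_prop)).inter (isClosed_le (by fun_prop) (by fun_prop))

lemma same {A : Set H} (hA : IsClopen A) {x y : H}
    (h : (x : ConnectedComponents H) = y) : x ∈ A ↔ y ∈ A :=
  ⟨fun hx => hA.connectedComponent_subset hx (ConnectedComponents.coe_eq_coe'.1 h.symm),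
    fun hy => hA.connectedComponent_subset hy (ConnectedComponents.coe_eq_coe'.1 h)⟩

noncomputable def pt : Fin 4 → H :=
  ![⟨0, zero_mem⟩, ⟨!₂[0, -1 / 2, -1 / 2], sub (Or.inl (by simp [P1]; norm_num))⟩,
    ⟨!₂[2, 0, 1 / 2], sub (Or.inr (Or.inl (by simp [P2]; norm_num)))⟩,
    ⟨!₂[5, 5, -1 / 2], sub (Or.inr (Or.inr (by simp [P3]; norm_num)))⟩]

lemma inj : Function.Injective fun i => (pt i : ConnectedComponents H) := by
  intro i j h
  have h0 := same cl0 h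
  have h2 := same cl2 h
  have h3 := same cl3 h
  have z : ∀ a b c : ℝ, c ≠ 0 → (!₂[a, b, c] : E) ≠ 0 := fun a b c hc h0 => by
    have := congrArg (fun w : E => w 2) h0
    simp [hc] at this
  fin_cases i <;> fin_cases j <;> first
    | rfl
    | (exfalso; simp [pt, z] at h0; done)
    | (exfalso; simp [pt] at h3; norm_num at h3; done)
    | (exfalso; simp [pt] at h2; norm_num at h2; done)

theorem result : ¬ ∀ n : ℕ, 1 ≤ n → ∀ S : Fin n → Set (EuclideanSpace ℝ (Fin n)),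
    (∀ i, IsBody (S i)) → StrictlySep S →
      Nat.card (ConnectedComponents (hull (⋃ i, S i))) = n := by
  intro h
  have h3 := h 3 (by norm_num) S body sep
  have : Finite (ConnectedComponents H) := Nat.finite_of_card_ne_zero (by rw [h3]; norm_num)
  have := Nat.card_le_card_of_injective _ inj
  rw [h3] at this
  simp at this

end Pool.Agent.Results.MP_1d6f1e_gt.Counter
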